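import Pool.Agent.PCL.Stmts

set_option autoImplicit false

open Finset

namespace Pool.Agent.PCL.H50

/-- real coefficients of two real-independent complex numbers -/
theorem two_real {W E : ℂ} (hE : E ≠ 0) (hW : ∀ t : ℝ, W ≠ t * E) {x y x' y' : ℝ}
    (h : (x : ℂ) * W + (y : ℂ) * E = x' * W + y' * E) : x = x' ∧ y = y' := by
  have hx : x = x' := by
    by_contra hne
    have h1 : ((x : ℂ) - x') ≠ 0 := by
      intro h0
      apply hne
      have : ((x - x' : ℝ) : ℂ) = 0 := by push_cast; exact h0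
      have h2 : x - x' = 0 := by exact_mod_cast this
      linarith
    apply hW ((y' - y) / (x - x'))
    push_cast
    field_simp
    linear_combination h
  refine ⟨hx, ?_⟩
  rw [hx] at h
  have h1 := add_left_cancel h
  have h2 := mul_right_cancel₀ hE h1
  exact_mod_cast h2

/-- Cramer's rule for `m + m` independent vectors in dimension `2 m` -/
theorem cramer_two {ι : Type} [Fintype ι] (m H : ℕ) (b b' : Fin m → ι → ℤ)
    (hcard : Fintype.card ι = 2 * m) (hli : LinearIndependent ℤ (Sum.elim b b'))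
    (hb : ∀ k i, |b k i| ≤ (H : ℤ)) (hb' : ∀ k i, |b' k i| ≤ (H : ℤ)) :
    ∃ Δ : ℤ, Δ ≠ 0 ∧ ∀ x : ι → ℤ, (∀ i, |x i| ≤ (H : ℤ)) → ∃ c c' : Fin m → ℤ,
      Δ • x = ∑ k, c k • b k + ∑ k, c' k • b' k ∧
      (∀ k, |c k| ≤ (((2 * m).factorial * H ^ (2 * m) : ℕ) : ℤ)) ∧
      ∀ k, |c' k| ≤ (((2 * m).factorial * H ^ (2 * m) : ℕ) : ℤ) := by
  classical
  have hc : Fintype.card (Fin m ⊕ Fin m) = 2 * m := by
    rw [Fintype.card_sum, Fintype.card_fin]
    ring
  have σ : (Fin m ⊕ Fin m) ≃ ι := Fintype.equivOfCardEq (by rw [hc, hcard])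
  set M : Matrix (Fin m ⊕ Fin m) (Fin m ⊕ Fin m) ℤ :=
    Matrix.of fun i k => Sum.elim b b' k (σ i) with hM
  have hcomb : ∀ v : Fin m ⊕ Fin m → ℤ, ∀ i, M.mulVec v i = (∑ k, v k • Sum.elim b b' k) (σ i) := by
    intro v i
    rw [Matrix.mulVec, dotProduct, Finset.sum_apply]
    refine Finset.sum_congr rfl fun k _ => ?_
    rw [Pi.smul_apply, smul_eq_mul, mul_comm]
    rfl
  have hdet : M.det ≠ 0 := by
    intro h
    obtain ⟨v, hv0, hv⟩ := Matrix.exists_mulVec_eq_zero_iff.mpr h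
    apply hv0
    rw [Fintype.linearIndependent_iff] at hli
    funext k
    refine hli v ?_ k
    funext i
    have h1 := hcomb v (σ.symm i)
    rw [hv, σ.apply_symm_apply] at h1
    rw [← h1]
    rfl
  refine ⟨M.det, hdet, fun x hx => ?_⟩
  set y : Fin m ⊕ Fin m → ℤ := fun i => x (σ i) with hy
  set q : Fin m ⊕ Fin m → ℤ := Matrix.cramer M y with hq
  have hent : ∀ i k, |M i k| ≤ (H : ℤ) := by
    intro i k
    rcases k with k | k
    · exact hb k (σ i)
    · exact hb' k (σ i)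
  have hqb : ∀ k, |q k| ≤ (((2 * m).factorial * H ^ (2 * m) : ℕ) : ℤ) := by
    intro k
    rw [hq, Matrix.cramer_apply]
    have h1 := Matrix.det_le (A := M.updateCol k y) (abv := AbsoluteValue.abs) (x := (H : ℤ))
      (by
        intro i j
        rw [AbsoluteValue.abs_apply, Matrix.updateCol_apply]
        split_ifs
        · exact hx (σ i)
        · exact hent i j)
    rw [hc, AbsoluteValue.abs_apply, nsmul_eq_mul] at h1
    push_cast
    exact h1
  refine ⟨fun k => q (Sum.inl k), fun k => q (Sum.inr k), ?_, fun k => hqb _, fun k => hqb _⟩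
  have h1 := Matrix.mulVec_cramer M y
  funext i
  have h2 := hcomb q (σ.symm i)
  rw [hq, h1, σ.apply_symm_apply, Fintype.sum_sum_type] at h2
  have h3 : y (σ.symm i) = x i := congrArg x (σ.apply_symm_apply i)
  have h4 : (M.det • y) (σ.symm i) = M.det * x i := by rw [Pi.smul_apply, smul_eq_mul, h3]
  have h5 : (M.det • x) i = M.det * x i := rfl
  rw [h4] at h2
  rw [h5, h2]
  rfl

theorem cra : CraStmt := by
  classical
  intro ι _ _ g m w e a H hg hH hcard ha hE hW haH hu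
  choose u hui hu using hu
  set W := pt g w with hWd
  set E := pt g e with hEd
  have hpt : ∀ c : ℤ, pt g (w + c • e) = W + c * E := by
    intro c
    rw [pt_add, pt_smul]
  have h01 : a 0 ≠ a 1 := fun h => absurd (ha h) (by decide)
  have h02 : a 0 ≠ a 2 := fun h => absurd (ha h) (by decide)
  have h12 : a 2 ≠ a 1 := fun h => absurd (ha h) (by decide)
  -- independence of the first two families
  have hdis : Disjoint (Lat g (pt g (w + a 0 • e))) (Lat g (pt g (w + a 1 • e))) := by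
    apply Lat_disj hg
    intro t ht
    rw [hpt, hpt] at ht
    have h1 : ((1 : ℝ) : ℂ) * W + ((a 1 : ℝ) : ℂ) * E = (t : ℂ) * W + ((t * a 0 : ℝ) : ℂ) * E := by
      push_cast
      linear_combination ht
    obtain ⟨h2, h3⟩ := two_real hE hW h1
    rw [← h2, one_mul] at h3
    apply h01
    exact_mod_cast h3.symm
  have hli : LinearIndependent ℤ (Sum.elim (u 0) (u 1)) := by
    refine LinearIndependent.sum_type (hui 0) (hui 1) ?_
    refine hdis.mono ?_ ?_
    · rw [Submodule.span_le]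
      rintro _ ⟨k, rfl⟩
      exact (hu 0 k).1
    · rw [Submodule.span_le]
      rintro _ ⟨k, rfl⟩
      exact (hu 1 k).1
  obtain ⟨Δ, hΔ, hcr⟩ := cramer_two m H (u 0) (u 1) hcard hli (fun k i => (hu 0 k).2 i)
    (fun k i => (hu 1 k).2 i)
  have hcr' : ∀ k, ∃ c c' : Fin m → ℤ, Δ • u 2 k = ∑ j, c j • u 0 j + ∑ j, c' j • u 1 j ∧
      (∀ j, |c j| ≤ (((2 * m).factorial * H ^ (2 * m) : ℕ) : ℤ)) ∧
      ∀ j, |c' j| ≤ (((2 * m).factorial * H ^ (2 * m) : ℕ) : ℤ) :=
    fun k => hcr (u 2 k) fun i => (hu 2 k).2 i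
  choose c c' hcc hc hc' using hcr'
  set z : Fin m → ι → ℤ := fun k => ∑ j, c k j • u 0 j with hz
  set z' : Fin m → ι → ℤ := fun k => ∑ j, c' k j • u 1 j with hz'
  have hzL : ∀ k, z k ∈ Lat g (pt g (w + a 0 • e)) := fun k =>
    Submodule.sum_mem _ fun j _ => Submodule.smul_mem _ _ (hu 0 j).1
  have hz'L : ∀ k, z' k ∈ Lat g (pt g (w + a 1 • e)) := fun k =>
    Submodule.sum_mem _ fun j _ => Submodule.smul_mem _ _ (hu 1 j).1
  -- bounds for z and z'
  set B0 : ℕ := m * (2 * m).factorial * H ^ (2 * m + 1) with hB0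
  have hbd : ∀ (d : Fin m → ℤ) (v : Fin m → ι → ℤ),
      (∀ j, |d j| ≤ (((2 * m).factorial * H ^ (2 * m) : ℕ) : ℤ)) →
      (∀ j i, |v j i| ≤ (H : ℤ)) → ∀ i, |(∑ j, d j • v j) i| ≤ (B0 : ℤ) := by
    intro d v hd hv i
    rw [Finset.sum_apply]
    calc |∑ j, (d j • v j) i| ≤ ∑ j, |(d j • v j) i| := Finset.abs_sum_le_sum_abs _ _
      _ ≤ ∑ _j : Fin m, (((2 * m).factorial * H ^ (2 * m) : ℕ) : ℤ) * H := by
          refine Finset.sum_le_sum fun j _ => ?_
          rw [Pi.smul_apply, smul_eq_mul, abs_mul]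
          exact mul_le_mul (hd j) (hv j i) (abs_nonneg _) (by positivity)
      _ = (B0 : ℤ) := by
          rw [Finset.sum_const, Finset.card_univ, Fintype.card_fin, nsmul_eq_mul, hB0]
          push_cast
          ring
  have hzb : ∀ k i, |z k i| ≤ (B0 : ℤ) := fun k i =>
    hbd (c k) (u 0) (hc k) (fun j i => (hu 0 j).2 i) i
  have hz'b : ∀ k i, |z' k i| ≤ (B0 : ℤ) := fun k i =>
    hbd (c' k) (u 1) (hc' k) (fun j i => (hu 1 j).2 i) i
  -- the real multipliers
  have hφ : ∀ k, ∃ t : ℝ, pt g (u 2 k) = t * (W + a 2 * E) := by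
    intro k
    obtain ⟨t, ht⟩ := (hu 2 k).1
    exact ⟨t, by rw [ht, hpt]⟩
  have hα : ∀ k, ∃ t : ℝ, pt g (z k) = t * (W + a 0 * E) := by
    intro k
    obtain ⟨t, ht⟩ := hzL k
    exact ⟨t, by rw [ht, hpt]⟩
  have hβ : ∀ k, ∃ t : ℝ, pt g (z' k) = t * (W + a 1 * E) := by
    intro k
    obtain ⟨t, ht⟩ := hz'L k
    exact ⟨t, by rw [ht, hpt]⟩
  choose φ hφ using hφ
  choose α hα using hα
  choose β hβ using hβ
  have hrel : ∀ k, α k + β k = Δ * φ k ∧ α k * a 0 + β k * a 1 = Δ * φ k * a 2 := by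
    intro k
    have h1 : pt g (Δ • u 2 k) = pt g (z k) + pt g (z' k) := by
      rw [hcc k, pt_add]
    rw [pt_smul, hφ, hα, hβ] at h1
    have h2 : ((α k + β k : ℝ) : ℂ) * W + ((α k * a 0 + β k * a 1 : ℝ) : ℂ) * E =
        ((Δ * φ k : ℝ) : ℂ) * W + ((Δ * φ k * a 2 : ℝ) : ℂ) * E := by
      push_cast
      linear_combination -h1
    exact two_real hE hW h2
  have hA : ∀ k, ((a 0 : ℝ) - a 1) * α k = ((a 2 : ℝ) - a 1) * (Δ * φ k) := by
    intro k
    obtain ⟨h1, h2⟩ := hrel k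
    linear_combination h2 - (a 1 : ℝ) * h1
  have hB : ∀ k, ((a 0 : ℝ) - a 1) * β k = ((a 0 : ℝ) - a 2) * (Δ * φ k) := by
    intro k
    obtain ⟨h1, h2⟩ := hrel k
    linear_combination (a 0 : ℝ) * h1 - h2
  have hAc : ∀ k, ((a 0 : ℂ) - a 1) * (α k : ℂ) = ((a 2 : ℂ) - a 1) * (Δ * φ k) := by
    intro k
    exact_mod_cast hA k
  have hBc : ∀ k, ((a 0 : ℂ) - a 1) * (β k : ℂ) = ((a 0 : ℂ) - a 2) * (Δ * φ k) := by
    intro k
    exact_mod_cast hB k
  set Z : Fin m → ι → ℤ := fun k => ((a 0 - a 2) * (a 0 - a 1)) • z k with hZ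
  set Z' : Fin m → ι → ℤ := fun k => ((a 2 - a 1) * (a 0 - a 1)) • z' k with hZ'
  set Y : Fin m → ι → ℤ := fun k => Z k - Z' k with hY
  set X : Fin m → ι → ℤ := fun k => (a 0 - a 1) • Z k - a 0 • Y k with hX
  set κ : ℝ := ((a 0 : ℝ) - a 1) * (((a 2 : ℝ) - a 1) * ((a 0 : ℝ) - a 2) * Δ) with hκ
  set θ : Fin m → ℝ := fun k => κ * φ k with hθ
  have hptZ : ∀ k, pt g (Z k) =
      ((a 2 : ℂ) - a 1) * ((a 0 : ℂ) - a 2) * (Δ * φ k) * (W + a 0 * E) := by
    intro k
    have h1 : pt g (Z k) = (((a 0 - a 2) * (a 0 - a 1) : ℤ) : ℂ) * pt g (z k) := pt_smul _ _ _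
    rw [h1, hα k]
    push_cast
    linear_combination ((a 0 : ℂ) - a 2) * (W + a 0 * E) * hAc k
  have hptZ' : ∀ k, pt g (Z' k) =
      ((a 2 : ℂ) - a 1) * ((a 0 : ℂ) - a 2) * (Δ * φ k) * (W + a 1 * E) := by
    intro k
    have h1 : pt g (Z' k) = (((a 2 - a 1) * (a 0 - a 1) : ℤ) : ℂ) * pt g (z' k) := pt_smul _ _ _
    rw [h1, hβ k]
    push_cast
    linear_combination ((a 2 : ℂ) - a 1) * (W + a 1 * E) * hBc k
  have hptY : ∀ k, pt g (Y k) = θ k * E := by
    intro k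
    have h1 : pt g (Y k) = pt g (Z k) - pt g (Z' k) := pt_sub _ _ _
    rw [h1, hptZ, hptZ', hθ, hκ]
    push_cast
    ring
  have hptX : ∀ k, pt g (X k) = θ k * W := by
    intro k
    have h1 : pt g (X k) = (((a 0 - a 1 : ℤ)) : ℂ) * pt g (Z k) - (a 0 : ℂ) * pt g (Y k) := by
      have h2 : pt g (X k) = pt g ((a 0 - a 1) • Z k) - pt g (a 0 • Y k) := pt_sub _ _ _
      rw [h2, pt_smul g (a 0 - a 1) (Z k), pt_smul g (a 0) (Y k)]
    rw [h1, hptZ, hptY, hθ, hκ]
    push_cast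
    ring
  have hκ0 : κ ≠ 0 := by
    rw [hκ]
    have e1 : ((a 0 : ℝ) - a 1) ≠ 0 := sub_ne_zero.mpr (by exact_mod_cast h01)
    have e2 : ((a 2 : ℝ) - a 1) ≠ 0 := sub_ne_zero.mpr (by exact_mod_cast h12)
    have e3 : ((a 0 : ℝ) - a 2) ≠ 0 := sub_ne_zero.mpr (by exact_mod_cast h02)
    have e4 : (Δ : ℝ) ≠ 0 := by exact_mod_cast hΔ
    exact mul_ne_zero e1 (mul_ne_zero (mul_ne_zero e2 e3) e4)
  -- independence
  have hcast : LinearIndependent ℚ (fun k => (fun i => (u 2 k i : ℚ)) : Fin m → ι → ℚ) := by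
    rw [← LinearIndependent.iff_fractionRing ℤ ℚ]
    let f : (ι → ℤ) →ₗ[ℤ] (ι → ℚ) :=
      { toFun := fun x i => (x i : ℚ)
        map_add' := fun x y => by funext i; simp
        map_smul' := fun r x => by funext i; simp }
    have hf : Function.Injective f := by
      intro x y hxy
      funext i
      have h1 := congrFun hxy i
      have h2 : (x i : ℚ) = (y i : ℚ) := h1
      exact_mod_cast h2
    exact (hui 2).map' f (LinearMap.ker_eq_bot.mpr hf)
  have hind : LinearIndependent ℚ θ := by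
    rw [Fintype.linearIndependent_iff]
    intro r hr
    rw [Fintype.linearIndependent_iff] at hcast
    have h1 : ∑ k, (r k : ℝ) * φ k = 0 := by
      have h2 : κ * ∑ k, (r k : ℝ) * φ k = 0 := by
        rw [← hr, Finset.mul_sum]
        refine Finset.sum_congr rfl fun k _ => ?_
        rw [hθ, Algebra.smul_def]
        simp only [eq_ratCast]
        ring
      rcases mul_eq_zero.mp h2 with h | h
      · exact absurd h hκ0
      · exact h
    have h2 : ∑ k, (r k : ℂ) * pt g (u 2 k) = 0 := by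
      have h3 : ∑ k, (r k : ℂ) * pt g (u 2 k) = ((∑ k, (r k : ℝ) * φ k : ℝ) : ℂ) *
          (W + a 2 * E) := by
        push_cast
        rw [Finset.sum_mul]
        refine Finset.sum_congr rfl fun k _ => ?_
        rw [hφ k]
        ring
      rw [h3, h1]
      simp
    rw [Fintype.linearIndependent_iff] at hg
    have h3 := hg (fun i => ∑ k, r k * (u 2 k i : ℚ)) (by
      rw [← h2]
      unfold pt
      have h4 : ∀ i, (∑ k, r k * (u 2 k i : ℚ)) • g i = ∑ k, (r k : ℂ) * ((u 2 k i : ℂ) * g i) := by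
        intro i
        rw [Algebra.smul_def, eq_ratCast]
        push_cast
        rw [Finset.sum_mul]
        refine Finset.sum_congr rfl fun k _ => ?_
        ring
      rw [Finset.sum_congr rfl fun i _ => h4 i, Finset.sum_comm]
      refine Finset.sum_congr rfl fun k _ => ?_
      rw [Finset.mul_sum])
    refine hcast r ?_
    funext i
    rw [Finset.sum_apply]
    have h5 := h3 i
    simp only [Pi.smul_apply, smul_eq_mul, Pi.zero_apply]
    exact h5
  refine ⟨X, Y, θ, ⟨hptX, hptY, hind⟩, ?_⟩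
  -- the bounds
  have hH1 : (1 : ℤ) ≤ H := by exact_mod_cast hH
  have hd : ∀ i j, |a i - a j| ≤ 2 * (H : ℤ) := by
    intro i j
    have h1 := abs_le.mp (haH i)
    have h2 := abs_le.mp (haH j)
    rw [abs_le]
    constructor <;> linarith [h1.1, h1.2, h2.1, h2.2]
  have hB0n : (0 : ℤ) ≤ (B0 : ℤ) := by positivity
  have hZb : ∀ k i, |Z k i| ≤ 4 * (H : ℤ) ^ 2 * B0 := by
    intro k i
    have h1 : Z k i = ((a 0 - a 2) * (a 0 - a 1)) * z k i := rfl
    rw [h1, abs_mul, abs_mul]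
    have h2 : |a 0 - a 2| * |a 0 - a 1| ≤ 4 * (H : ℤ) ^ 2 := by
      have := mul_le_mul (hd 0 2) (hd 0 1) (abs_nonneg _) (by positivity)
      nlinarith
    exact mul_le_mul h2 (hzb k i) (abs_nonneg _) (by positivity)
  have hZ'b : ∀ k i, |Z' k i| ≤ 4 * (H : ℤ) ^ 2 * B0 := by
    intro k i
    have h1 : Z' k i = ((a 2 - a 1) * (a 0 - a 1)) * z' k i := rfl
    rw [h1, abs_mul, abs_mul]
    have h2 : |a 2 - a 1| * |a 0 - a 1| ≤ 4 * (H : ℤ) ^ 2 := by
      have := mul_le_mul (hd 2 1) (hd 0 1) (abs_nonneg _) (by positivity)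
      nlinarith
    exact mul_le_mul h2 (hz'b k i) (abs_nonneg _) (by positivity)
  have hYb : ∀ k i, |Y k i| ≤ 8 * (H : ℤ) ^ 2 * B0 := by
    intro k i
    have h1 : Y k i = Z k i - Z' k i := rfl
    rw [h1]
    have h2 := abs_le.mp (hZb k i)
    have h3 := abs_le.mp (hZ'b k i)
    rw [abs_le]
    constructor <;> linarith [h2.1, h2.2, h3.1, h3.2]
  have hXb : ∀ k i, |X k i| ≤ 16 * (H : ℤ) ^ 3 * B0 := by
    intro k i
    have h1 : X k i = (a 0 - a 1) * Z k i - a 0 * Y k i := rfl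
    rw [h1]
    have h2 : |(a 0 - a 1) * Z k i| ≤ 2 * (H : ℤ) * (4 * (H : ℤ) ^ 2 * B0) := by
      rw [abs_mul]
      exact mul_le_mul (hd 0 1) (hZb k i) (abs_nonneg _) (by positivity)
    have h3 : |a 0 * Y k i| ≤ (H : ℤ) * (8 * (H : ℤ) ^ 2 * B0) := by
      rw [abs_mul]
      exact mul_le_mul (haH 0) (hYb k i) (abs_nonneg _) (by positivity)
    have h4 := abs_le.mp h2
    have h5 := abs_le.mp h3
    rw [abs_le]
    constructor <;> nlinarith [h4.1, h4.2, h5.1, h5.2]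
  have hfin : 16 * (H : ℤ) ^ 3 * B0 =
      ((16 * m * (2 * m).factorial * H ^ (2 * m + 4) : ℕ) : ℤ) := by
    rw [hB0]
    push_cast
    ring
  intro j i
  refine ⟨?_, ?_⟩
  · rw [← hfin]
    exact hXb j i
  · rw [← hfin]
    refine (hYb j i).trans ?_
    have h1 : (H : ℤ) ^ 2 ≤ (H : ℤ) ^ 3 := pow_le_pow_right₀ hH1 (by norm_num)
    have h2 : (H : ℤ) ^ 2 * B0 ≤ (H : ℤ) ^ 3 * B0 := mul_le_mul_of_nonneg_right h1 hB0n
    have h3 : (0 : ℤ) ≤ (H : ℤ) ^ 3 * B0 := by positivity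
    nlinarith

end Pool.Agent.PCL.H50
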