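import Pool.Agent.Helper50_PCL.LOW

set_option autoImplicit false

open Finset

namespace Pool.Agent.PCL.H50

/-- integer vectors modulo independent integer vectors are small -/
theorem red_small {m : ℕ} (γ : Fin m → Fin m → ℤ) (hli : LinearIndependent ℤ γ) (B : Fin m → ℝ)
    (hB : ∀ j i, |(γ j i : ℝ)| ≤ B i) (x : Fin m → ℤ) :
    ∃ q : Fin m → ℤ, ∀ i, |((x i - ∑ j, q j * γ j i : ℤ) : ℝ)| ≤ m * B i := by
  classical
  set M : Matrix (Fin m) (Fin m) ℤ := Matrix.of γ with hM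
  have hE : M.det ≠ 0 := by
    intro h
    obtain ⟨v, hv0, hv⟩ := Matrix.exists_vecMul_eq_zero_iff.mpr h
    apply hv0
    rw [Fintype.linearIndependent_iff] at hli
    funext j
    refine hli v ?_ j
    rw [← hv]
    funext i
    rw [Finset.sum_apply]
    rfl
  set E := M.det with hEd
  set c : Fin m → ℤ := Matrix.cramer M.transpose x with hc
  have hcr : ∀ i, ∑ j, c j * γ j i = E * x i := by
    intro i
    have h := congrFun (Matrix.mulVec_cramer M.transpose x) i
    rw [Matrix.mulVec, dotProduct, Pi.smul_apply, smul_eq_mul, Matrix.det_transpose] at h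
    rw [← h]
    refine Finset.sum_congr rfl fun j _ => ?_
    rw [mul_comm]
    rfl
  refine ⟨fun j => c j / E, fun i => ?_⟩
  have hEpos : (0 : ℝ) < |(E : ℝ)| := by
    rw [abs_pos]
    exact_mod_cast hE
  have h1 : E * (x i - ∑ j, c j / E * γ j i) = ∑ j, (c j % E) * γ j i := by
    rw [mul_sub, ← hcr i, Finset.mul_sum, ← Finset.sum_sub_distrib]
    refine Finset.sum_congr rfl fun j _ => ?_
    have h2 := Int.emod_add_mul_ediv (c j) E
    have h3 : c j % E = c j - E * (c j / E) := by linarith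
    rw [h3]
    ring
  have h2 : |(E : ℝ)| * |((x i - ∑ j, c j / E * γ j i : ℤ) : ℝ)| ≤ |(E : ℝ)| * (m * B i) := by
    rw [← abs_mul]
    have h3 : (E : ℝ) * ((x i - ∑ j, c j / E * γ j i : ℤ) : ℝ) =
        ∑ j, ((c j % E : ℤ) : ℝ) * (γ j i : ℝ) := by
      exact_mod_cast h1
    rw [h3]
    calc |∑ j, ((c j % E : ℤ) : ℝ) * (γ j i : ℝ)|
        ≤ ∑ j, |((c j % E : ℤ) : ℝ) * (γ j i : ℝ)| := Finset.abs_sum_le_sum_abs _ _
      _ ≤ ∑ _j : Fin m, |(E : ℝ)| * B i := by
          refine Finset.sum_le_sum fun j _ => ?_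
          rw [abs_mul]
          have h4 : |((c j % E : ℤ) : ℝ)| ≤ |(E : ℝ)| := by
            have h5 := Int.emod_nonneg (c j) hE
            have h6 := Int.emod_lt_abs (c j) hE
            rw [abs_of_nonneg (by exact_mod_cast h5)]
            exact_mod_cast h6.le
          exact mul_le_mul h4 (hB j i) (abs_nonneg _) (abs_nonneg _)
      _ = |(E : ℝ)| * (m * B i) := by
          rw [Finset.sum_const, Finset.card_univ, Fintype.card_fin, nsmul_eq_mul]
          ring
  exact le_of_mul_le_mul_left h2 hEpos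

/-- the map to the chosen coordinates -/
def pr {ι : Type} {m : ℕ} (L : Submodule ℤ (ι → ℤ)) (s : Fin m → ι) : L →ₗ[ℤ] (Fin m → ℤ) where
  toFun z := fun i => (z : ι → ℤ) (s i)
  map_add' := fun _ _ => rfl
  map_smul' := fun _ _ => rfl

theorem pr_mem {ι : Type} {m : ℕ} (L : Submodule ℤ (ι → ℤ)) (b : Module.Basis (Fin m) ℤ L)
    (s : Fin m → ι) (z : L) : pr L s z ∈ Gam L b s := by
  unfold Gam
  rw [← b.sum_repr z, map_sum]
  refine Submodule.sum_mem _ fun k _ => ?_
  rw [map_smul]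
  exact Submodule.smul_mem _ _ (Submodule.subset_span ⟨k, rfl⟩)

theorem pr_inj {ι : Type} [Fintype ι] [DecidableEq ι] {m : ℕ} (L : Submodule ℤ (ι → ℤ))
    (b : Module.Basis (Fin m) ℤ L) (s : Fin m → ι)
    (h0 : mn (fun k => (b k : ι → ℤ)) s ≠ 0) : Function.Injective (pr L s) := by
  rw [← LinearMap.ker_eq_bot, LinearMap.ker_eq_bot']
  intro z hz
  apply Subtype.ext
  funext j
  have h1 := cram L b s j z z.2
  have h2 : ∑ i, mn (fun k => (b k : ι → ℤ)) (Function.update s i j) * (z : ι → ℤ) (s i) = 0 := by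
    refine Finset.sum_eq_zero fun i _ => ?_
    have h3 : (z : ι → ℤ) (s i) = 0 := congrFun hz i
    rw [h3, mul_zero]
  rw [h2] at h1
  rcases mul_eq_zero.mp h1 with h | h
  · exact absurd h h0
  · exact h

theorem idx : IdxStmt := by
  classical
  intro ι _ _ N m L b s r hN hr hu
  obtain ⟨u, hui, hu⟩ := hu
  set D : ℤ := mn (fun k => (b k : ι → ℤ)) s with hD
  have hNpos : ∀ i, (1 : ℝ) ≤ N i := fun i => by exact_mod_cast hN i
  by_cases h0 : D = 0
  · rw [h0]
    simp only [Int.cast_zero, abs_zero, zero_mul]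
    positivity
  set γ : Fin m → Fin m → ℤ := fun j => pr L s ⟨u j, (hu j).1⟩ with hγ
  have hγi : LinearIndependent ℤ γ := by
    have h1 : LinearIndependent ℤ (fun j => (⟨u j, (hu j).1⟩ : L)) := by
      apply LinearIndependent.of_comp L.subtype
      exact hui
    exact h1.map' (pr L s) (LinearMap.ker_eq_bot.mpr (pr_inj L b s h0))
  have hγB : ∀ j i, |(γ j i : ℝ)| ≤ r * N (s i) := fun j i => (hu j).2 (s i)
  have hrep : ∀ y : (Fin m → ℤ) ⧸ Gam L b s, ∃ x : Fin m → ℤ, (Gam L b s).mkQ x = y ∧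
      ∀ i, |(x i : ℝ)| ≤ m * (r * N (s i)) := by
    intro y
    obtain ⟨x, hx⟩ := (Gam L b s).mkQ_surjective y
    obtain ⟨q, hq⟩ := red_small γ hγi (fun i => r * N (s i)) hγB x
    refine ⟨x - ∑ j, q j • γ j, ?_, fun i => ?_⟩
    · rw [map_sub, hx, map_sum]
      have : ∑ j, (Gam L b s).mkQ (q j • γ j) = 0 := by
        refine Finset.sum_eq_zero fun j _ => ?_
        rw [map_smul]
        have h1 : (Gam L b s).mkQ (γ j) = 0 := by
          rw [Submodule.mkQ_apply, Submodule.Quotient.mk_eq_zero]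
          exact pr_mem L b s _
        rw [h1, smul_zero]
      rw [this, sub_zero]
    · have h2 := hq i
      have h3 : (x - ∑ j, q j • γ j) i = x i - ∑ j, q j * γ j i := by
        rw [Pi.sub_apply, Finset.sum_apply]
        rfl
      rw [h3]
      exact h2
  choose rp hrp1 hrp2 using hrep
  have hcard := Gam_card L b s h0
  have hDn : D.natAbs ≠ 0 := Int.natAbs_ne_zero.mpr h0
  have hfin : Finite ((Fin m → ℤ) ⧸ Gam L b s) := by
    apply Nat.finite_of_card_ne_zero
    rw [hcard]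
    exact hDn
  have : Fintype ((Fin m → ℤ) ⧸ Gam L b s) := Fintype.ofFinite _
  have hcard' : Fintype.card ((Fin m → ℤ) ⧸ Gam L b s) = D.natAbs := by
    rw [← Nat.card_eq_fintype_card, hcard]
  -- the injection
  set S : Finset (ι → ℤ) := (bx N r).filter fun x => x ∈ L with hS
  set F : ((Fin m → ℤ) ⧸ Gam L b s) × (ι → ℤ) → (Fin m → ℤ) :=
    fun p => rp p.1 + fun i => p.2 (s i) with hF
  have hmaps : ∀ p ∈ (Finset.univ ×ˢ S : Finset (((Fin m → ℤ) ⧸ Gam L b s) × (ι → ℤ))),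
      F p ∈ bx (fun i => N (s i)) (((m : ℝ) + 1) * r) := by
    intro p hp
    rw [Finset.mem_product, hS, Finset.mem_filter, mem_bx] at hp
    rw [mem_bx]
    intro i
    have h1 := hrp2 p.1 i
    have h2 := hp.2.1 (s i)
    change |((rp p.1 i + p.2 (s i) : ℤ) : ℝ)| ≤ ((m : ℝ) + 1) * r * N (s i)
    push_cast
    calc |(rp p.1 i : ℝ) + (p.2 (s i) : ℝ)| ≤ |(rp p.1 i : ℝ)| + |(p.2 (s i) : ℝ)| :=
          abs_add_le _ _
      _ ≤ m * (r * N (s i)) + r * N (s i) := add_le_add h1 h2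
      _ = ((m : ℝ) + 1) * r * N (s i) := by ring
  have hinj : Set.InjOn F ((Finset.univ ×ˢ S :
      Finset (((Fin m → ℤ) ⧸ Gam L b s) × (ι → ℤ))) : Set _) := by
    intro p hp p' hp' heq
    rw [Finset.mem_coe, Finset.mem_product, hS, Finset.mem_filter] at hp hp'
    have hmk : ∀ p : ((Fin m → ℤ) ⧸ Gam L b s) × (ι → ℤ), p.2 ∈ L →
        (Gam L b s).mkQ (F p) = p.1 := by
      intro p hp
      rw [hF]
      have h1 : (fun i => p.2 (s i)) = pr L s ⟨p.2, hp⟩ := rfl
      change (Gam L b s).mkQ (rp p.1 + fun i => p.2 (s i)) = p.1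
      rw [map_add, hrp1, h1]
      have h2 : (Gam L b s).mkQ (pr L s ⟨p.2, hp⟩) = 0 := by
        rw [Submodule.mkQ_apply, Submodule.Quotient.mk_eq_zero]
        exact pr_mem L b s _
      rw [h2, add_zero]
    have h1 : p.1 = p'.1 := by
      rw [← hmk p hp.2.2, ← hmk p' hp'.2.2, heq]
    have h2 : (fun i => p.2 (s i)) = fun i => p'.2 (s i) := by
      have h3 : rp p.1 + (fun i => p.2 (s i)) = rp p'.1 + fun i => p'.2 (s i) := heq
      rw [h1] at h3
      exact add_left_cancel h3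
    have h4 : (⟨p.2, hp.2.2⟩ : L) = ⟨p'.2, hp'.2.2⟩ := by
      apply pr_inj L b s h0
      exact h2
    have h5 : p.2 = p'.2 := congrArg Subtype.val h4
    exact Prod.ext h1 h5
  have hle := Finset.card_le_card_of_injOn F hmaps hinj
  rw [Finset.card_product, Finset.card_univ, hcard'] at hle
  have hcnt : S.card = cnt L N r := rfl
  rw [hcnt] at hle
  have hbox : ((bx (fun i => N (s i)) (((m : ℝ) + 1) * r)).card : ℝ) ≤
      ∏ i, (3 * ((m : ℝ) + 1) * r * N (s i)) := by
    unfold bx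
    rw [Fintype.card_piFinset]
    push_cast
    refine Finset.prod_le_prod (fun i _ => by positivity) fun i _ => ?_
    rw [Int.card_Icc]
    have hb : (1 : ℝ) ≤ ((m : ℝ) + 1) * r * N (s i) := by
      have h1 : (1 : ℝ) ≤ (m : ℝ) + 1 := by
        have : (0 : ℝ) ≤ m := Nat.cast_nonneg _
        linarith
      have h2 : (1 : ℝ) ≤ ((m : ℝ) + 1) * r := by nlinarith
      have h3 := hNpos (s i)
      nlinarith
    have hfl : (0 : ℤ) ≤ ⌊((m : ℝ) + 1) * r * N (s i)⌋ := Int.floor_nonneg.mpr (by linarith)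
    have h4 : (((⌊((m : ℝ) + 1) * r * N (s i)⌋ + 1 - -⌊((m : ℝ) + 1) * r * N (s i)⌋).toNat : ℕ) :
        ℝ) = 2 * (⌊((m : ℝ) + 1) * r * N (s i)⌋ : ℝ) + 1 := by
      have h5 : (((⌊((m : ℝ) + 1) * r * N (s i)⌋ + 1 -
          -⌊((m : ℝ) + 1) * r * N (s i)⌋).toNat : ℤ)) =
          2 * ⌊((m : ℝ) + 1) * r * N (s i)⌋ + 1 := by
        rw [Int.toNat_of_nonneg (by linarith)]
        ring
      exact_mod_cast h5
    rw [h4]
    have h6 := Int.floor_le (((m : ℝ) + 1) * r * N (s i))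
    linarith
  calc |(D : ℝ)| * cnt L N r = ((D.natAbs * cnt L N r : ℕ) : ℝ) := by
        rw [Nat.cast_mul, Nat.cast_natAbs, Int.cast_abs]
    _ ≤ ((bx (fun i => N (s i)) (((m : ℝ) + 1) * r)).card : ℝ) := by exact_mod_cast hle
    _ ≤ ∏ i, (3 * ((m : ℝ) + 1) * r * N (s i)) := hbox
    _ = (3 * ((m : ℝ) + 1) * r) ^ m * ∏ i, (N (s i) : ℝ) := by
        rw [Finset.prod_mul_distrib, Finset.prod_const, Finset.card_univ, Fintype.card_fin]

end Pool.Agent.PCL.H50
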