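import Pool.Agent.PCL.Stmts

set_option autoImplicit false

open Finset

namespace Pool.Agent.PCL.H50

/-- Cramer's rule for one more coordinate. -/
theorem cram {ι : Type} [Fintype ι] [DecidableEq ι] {m : ℕ} (L : Submodule ℤ (ι → ℤ))
    (b : Module.Basis (Fin m) ℤ L) (s : Fin m → ι) (j : ι) (z : ι → ℤ) (hz : z ∈ L) :
    mn (fun k => (b k : ι → ℤ)) s * z j =
      ∑ i, mn (fun k => (b k : ι → ℤ)) (Function.update s i j) * z (s i) := by
  set A : Matrix (Fin m) (Fin m) ℤ := Matrix.of fun i k => (b k : ι → ℤ) (s i) with hA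
  set r : Fin m → ℤ := fun k => (b k : ι → ℤ) j with hr
  have hup : ∀ i, mn (fun k => (b k : ι → ℤ)) (Function.update s i j) = (A.updateRow i r).det := by
    intro i
    unfold mn
    congr 1
    ext i' k
    rw [Matrix.updateRow_apply, Matrix.of_apply]
    by_cases h : i' = i
    · rw [h, if_pos rfl, Function.update_self]
    · rw [if_neg h, Function.update_of_ne h]
      rfl
  have hbas : ∀ k, mn (fun k => (b k : ι → ℤ)) s * (b k : ι → ℤ) j =
      ∑ i, mn (fun k => (b k : ι → ℤ)) (Function.update s i j) * (b k : ι → ℤ) (s i) := by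
    intro k
    have h := congrFun (Matrix.mulVec_cramer A.transpose r) k
    rw [Matrix.mulVec, dotProduct, Pi.smul_apply, smul_eq_mul, Matrix.det_transpose] at h
    have h1 : mn (fun k => (b k : ι → ℤ)) s = A.det := rfl
    rw [h1]
    rw [← h]
    refine Finset.sum_congr rfl fun i _ => ?_
    rw [Matrix.cramer_transpose_apply, hup i, mul_comm]
    rfl
  -- the representation of z
  have hrep : z = ∑ k, b.repr ⟨z, hz⟩ k • (b k : ι → ℤ) := by
    have h := congrArg (fun y : L => (y : ι → ℤ)) (b.sum_repr ⟨z, hz⟩)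
    simp only [AddSubmonoidClass.coe_finsetSum, SetLike.val_smul] at h
    exact h.symm
  have hrj : ∀ l, z l = ∑ k, b.repr ⟨z, hz⟩ k * (b k : ι → ℤ) l := by
    intro l
    conv_lhs => rw [hrep]
    rw [Finset.sum_apply]
    refine Finset.sum_congr rfl fun k _ => ?_
    rw [Pi.smul_apply, smul_eq_mul]
  rw [hrj j, Finset.mul_sum]
  have h2 : ∀ i, mn (fun k => (b k : ι → ℤ)) (Function.update s i j) * z (s i) =
      ∑ k, b.repr ⟨z, hz⟩ k *
        (mn (fun k => (b k : ι → ℤ)) (Function.update s i j) * (b k : ι → ℤ) (s i)) := by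
    intro i
    rw [hrj (s i), Finset.mul_sum]
    refine Finset.sum_congr rfl fun k _ => ?_
    ring
  rw [Finset.sum_congr rfl fun i _ => h2 i, Finset.sum_comm]
  refine Finset.sum_congr rfl fun k _ => ?_
  rw [← Finset.mul_sum, ← hbas k]
  ring

/-- the lattice of the chosen coordinates -/
def Gam {ι : Type} {m : ℕ} (L : Submodule ℤ (ι → ℤ)) (b : Module.Basis (Fin m) ℤ L)
    (s : Fin m → ι) : Submodule ℤ (Fin m → ℤ) :=
  Submodule.span ℤ (Set.range fun k => fun i => (b k : ι → ℤ) (s i))

/-- every element of the lattice of coordinates comes from L -/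
theorem Gam_lift {ι : Type} {m : ℕ} (L : Submodule ℤ (ι → ℤ)) (b : Module.Basis (Fin m) ℤ L)
    (s : Fin m → ι) (y : Fin m → ℤ) (hy : y ∈ Gam L b s) : ∃ z ∈ L, ∀ i, z (s i) = y i := by
  unfold Gam at hy
  rw [Submodule.mem_span_range_iff_exists_fun] at hy
  obtain ⟨c, hc⟩ := hy
  refine ⟨∑ k, c k • (b k : ι → ℤ), Submodule.sum_mem _ fun k _ => Submodule.smul_mem _ _ (b k).2,
    fun i => ?_⟩
  rw [← hc, Finset.sum_apply, Finset.sum_apply]
  rfl

/-- the number of the classes -/
theorem Gam_card {ι : Type} {m : ℕ} (L : Submodule ℤ (ι → ℤ)) (b : Module.Basis (Fin m) ℤ L)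
    (s : Fin m → ι) (h0 : mn (fun k => (b k : ι → ℤ)) s ≠ 0) :
    Nat.card ((Fin m → ℤ) ⧸ Gam L b s) = (mn (fun k => (b k : ι → ℤ)) s).natAbs := by
  set v : Fin m → Fin m → ℤ := fun k => fun i => (b k : ι → ℤ) (s i) with hv
  have hdet : (Matrix.of v).det = mn (fun k => (b k : ι → ℤ)) s := by
    unfold mn
    rw [← Matrix.det_transpose]
    rfl
  have hli : LinearIndependent ℤ v := by
    have h1 : (Matrix.of v).det ≠ 0 := by rw [hdet]; exact h0
    have h2 := Matrix.linearIndependent_rows_of_det_ne_zero h1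
    exact h2
  have h3 := Submodule.natAbs_det_basis_change (Pi.basisFun ℤ (Fin m)) (Gam L b s)
    (Module.Basis.span hli)
  rw [← h3]
  have h4 : ((↑) ∘ (Module.Basis.span hli) : Fin m → Fin m → ℤ) = v := by
    funext k
    exact congrArg Subtype.val (Module.Basis.span_apply hli k)
  have h5 : (Pi.basisFun ℤ (Fin m)).det ((↑) ∘ (Module.Basis.span hli)) =
      mn (fun k => (b k : ι → ℤ)) s := by
    rw [h4, Pi.basisFun_det_apply, hdet]
  rw [← h5]
  rfl

theorem low : LowStmt := by
  classical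
  intro ι _ _ N m L b s hN hm h0 hmax
  set D : ℤ := mn (fun k => (b k : ι → ℤ)) s with hD
  set q : Fin m → ℕ := fun i => N (s i) / m with hq
  set P : Finset (Fin m → ℤ) := Fintype.piFinset fun i => Finset.Icc (0 : ℤ) (q i) with hP
  have hPc : P.card = ∏ i, (q i + 1) := by
    rw [hP, Fintype.card_piFinset]
    refine Finset.prod_congr rfl fun i _ => ?_
    rw [Int.card_Icc]
    simp
  have hcard := Gam_card L b s h0
  have hDn : D.natAbs ≠ 0 := Int.natAbs_ne_zero.mpr h0
  have hfin : Finite ((Fin m → ℤ) ⧸ Gam L b s) := by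
    apply Nat.finite_of_card_ne_zero
    rw [hcard]
    exact hDn
  have : Fintype ((Fin m → ℤ) ⧸ Gam L b s) := Fintype.ofFinite _
  have hcard' : Fintype.card ((Fin m → ℤ) ⧸ Gam L b s) = D.natAbs := by
    rw [← Nat.card_eq_fintype_card, hcard]
  -- pigeonhole
  have hpig : ∃ y : (Fin m → ℤ) ⧸ Gam L b s, P.card ≤ D.natAbs *
      (P.filter fun x => (Gam L b s).mkQ x = y).card := by
    by_contra hcon
    push Not at hcon
    have h1 : P.card = ∑ y : (Fin m → ℤ) ⧸ Gam L b s,
        (P.filter fun x => (Gam L b s).mkQ x = y).card :=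
      Finset.card_eq_sum_card_fiberwise fun x _ => Finset.mem_coe.mpr (Finset.mem_univ _)
    have h2 : ∑ y : (Fin m → ℤ) ⧸ Gam L b s, (D.natAbs *
        (P.filter fun x => (Gam L b s).mkQ x = y).card) <
        ∑ y : (Fin m → ℤ) ⧸ Gam L b s, P.card := by
      refine Finset.sum_lt_sum_of_nonempty ?_ fun y _ => hcon y
      exact ⟨(Gam L b s).mkQ 0, Finset.mem_univ _⟩
    rw [← Finset.mul_sum, ← h1, Finset.sum_const, Finset.card_univ, hcard', smul_eq_mul] at h2
    exact lt_irrefl _ h2
  obtain ⟨y, hy⟩ := hpig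
  set F := P.filter fun x => (Gam L b s).mkQ x = y with hF
  have hPpos : 0 < P.card := by
    rw [hPc]
    exact Finset.prod_pos fun i _ => Nat.succ_pos _
  have hFne : F.Nonempty := by
    rw [← Finset.card_pos]
    rcases Nat.eq_zero_or_pos F.card with h | h
    · rw [h] at hy
      omega
    · exact h
  obtain ⟨x0, hx0⟩ := hFne
  have hx0' : x0 ∈ P ∧ (Gam L b s).mkQ x0 = y := by
    rw [hF, Finset.mem_filter] at hx0
    exact hx0
  -- the lift
  have hlift : ∀ x : Fin m → ℤ, ∃ z : ι → ℤ, x ∈ F → z ∈ L ∧ ∀ i, z (s i) = x i - x0 i := by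
    intro x
    by_cases hx : x ∈ F
    · have hx' : x ∈ P ∧ (Gam L b s).mkQ x = y := by
        rw [hF, Finset.mem_filter] at hx
        exact hx
      have hmem : x - x0 ∈ Gam L b s := by
        have h1 : (Gam L b s).mkQ x = (Gam L b s).mkQ x0 := by rw [hx'.2, hx0'.2]
        rw [Submodule.mkQ_apply, Submodule.mkQ_apply] at h1
        exact (Submodule.Quotient.eq _).mp h1
      obtain ⟨z, hz, hzi⟩ := Gam_lift L b s _ hmem
      exact ⟨z, fun _ => ⟨hz, fun i => by rw [hzi i]; rfl⟩⟩
    · exact ⟨0, fun h => absurd h hx⟩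
  choose lf hlf using hlift
  -- the counting inequality
  have hmR : (0 : ℝ) < m := by exact_mod_cast hm
  have hNpos : ∀ i, (0 : ℝ) < N i := fun i => by exact_mod_cast hN i
  have hbox : ∀ x ∈ F, lf x ∈ (bx N 1).filter fun x => x ∈ L := by
    intro x hx
    obtain ⟨hzL, hzi⟩ := hlf x hx
    rw [Finset.mem_filter]
    refine ⟨?_, hzL⟩
    rw [mem_bx]
    intro j
    have hx' : x ∈ P := by
      rw [hF, Finset.mem_filter] at hx
      exact hx.1
    have hsmall : ∀ i, |((lf x (s i) : ℤ) : ℝ)| ≤ N (s i) / m := by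
      intro i
      rw [hzi i]
      have h1 := hx'
      have h2 := hx0'.1
      rw [hP, Fintype.mem_piFinset] at h1 h2
      have h3 := Finset.mem_Icc.mp (h1 i)
      have h4 := Finset.mem_Icc.mp (h2 i)
      have h5 : |x i - x0 i| ≤ (q i : ℤ) := by
        rw [abs_le]
        constructor <;> linarith [h3.1, h3.2, h4.1, h4.2]
      have h6 : |((x i - x0 i : ℤ) : ℝ)| ≤ (q i : ℝ) := by exact_mod_cast h5
      refine h6.trans ?_
      rw [hq]
      exact Nat.cast_div_le
    have hc := cram L b s j (lf x) hzL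
    rw [← hD] at hc
    have hDpos : (0 : ℝ) < |(D : ℝ)| := by
      rw [abs_pos]
      exact_mod_cast h0
    -- the bound for the cofactors
    have hcof : ∀ i, |(mn (fun k => (b k : ι → ℤ)) (Function.update s i j) : ℝ)| * N (s i) ≤
        |(D : ℝ)| * N j := by
      intro i
      have h1 := hmax (Function.update s i j)
      have h2 : ∏ i', (N (s i') : ℝ) = N (s i) * ∏ i' ∈ Finset.univ.erase i, (N (s i') : ℝ) :=
        (Finset.mul_prod_erase Finset.univ _ (Finset.mem_univ i)).symm
      have h3 : ∏ i', (N (Function.update s i j i') : ℝ) =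
          N j * ∏ i' ∈ Finset.univ.erase i, (N (s i') : ℝ) := by
        rw [← Finset.mul_prod_erase Finset.univ _ (Finset.mem_univ i), Function.update_self]
        congr 1
        refine Finset.prod_congr rfl fun i' hi' => ?_
        rw [Function.update_of_ne (Finset.ne_of_mem_erase hi')]
      rw [h2, h3] at h1
      have h4 : (0 : ℝ) < ∏ i' ∈ Finset.univ.erase i, (N (s i') : ℝ) :=
        Finset.prod_pos fun i' _ => hNpos _
      have h5 : (|(mn (fun k => (b k : ι → ℤ)) (Function.update s i j) : ℝ)| * N (s i)) *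
          ∏ i' ∈ Finset.univ.erase i, (N (s i') : ℝ) ≤ (|(D : ℝ)| * N j) *
          ∏ i' ∈ Finset.univ.erase i, (N (s i') : ℝ) := by
        rw [mul_assoc, mul_assoc]
        exact h1
      exact le_of_mul_le_mul_right h5 h4
    have h7 : |(D : ℝ)| * |((lf x j : ℤ) : ℝ)| ≤ |(D : ℝ)| * N j := by
      have h8 : (D : ℝ) * (lf x j : ℝ) =
          ∑ i, (mn (fun k => (b k : ι → ℤ)) (Function.update s i j) : ℝ) * (lf x (s i) : ℝ) := by
        exact_mod_cast hc
      rw [← abs_mul, h8]
      calc |∑ i, (mn (fun k => (b k : ι → ℤ)) (Function.update s i j) : ℝ) * (lf x (s i) : ℝ)|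
          ≤ ∑ i, |(mn (fun k => (b k : ι → ℤ)) (Function.update s i j) : ℝ) *
              (lf x (s i) : ℝ)| := Finset.abs_sum_le_sum_abs _ _
        _ ≤ ∑ i : Fin m, |(D : ℝ)| * N j / m := by
            refine Finset.sum_le_sum fun i _ => ?_
            rw [abs_mul]
            calc |(mn (fun k => (b k : ι → ℤ)) (Function.update s i j) : ℝ)| *
                  |((lf x (s i) : ℤ) : ℝ)|
                ≤ |(mn (fun k => (b k : ι → ℤ)) (Function.update s i j) : ℝ)| *
                  (N (s i) / m) := mul_le_mul_of_nonneg_left (hsmall i) (abs_nonneg _)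
              _ = (|(mn (fun k => (b k : ι → ℤ)) (Function.update s i j) : ℝ)| * N (s i)) / m := by
                  ring
              _ ≤ |(D : ℝ)| * N j / m := by
                  exact div_le_div_of_nonneg_right (hcof i) hmR.le
        _ = |(D : ℝ)| * N j := by
            rw [Finset.sum_const, Finset.card_univ, Fintype.card_fin, nsmul_eq_mul]
            field_simp
    have h9 := le_of_mul_le_mul_left h7 hDpos
    rw [one_mul]
    exact h9
  have hinj : Set.InjOn lf (F : Set (Fin m → ℤ)) := by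
    intro x hx x' hx' heq
    have h1 := (hlf x hx).2
    have h2 := (hlf x' hx').2
    funext i
    have h3 := h1 i
    have h4 := h2 i
    rw [heq] at h3
    linarith
  have hle : F.card ≤ cnt L N 1 := by
    unfold cnt
    refine Finset.card_le_card_of_injOn lf ?_ hinj
    intro x hx
    have := hbox x hx
    rw [Finset.mem_filter] at this
    rw [Finset.mem_coe, Finset.mem_filter]
    exact this
  -- conclusion
  have hfac : ∀ i, (N (s i) : ℝ) ≤ m * ((q i : ℝ) + 1) := by
    intro i
    have h1 : N (s i) < m * (q i + 1) := by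
      rw [hq]
      have := Nat.lt_mul_div_succ (N (s i)) (Nat.pos_of_ne_zero (by omega) : 0 < m)
      exact this
    exact_mod_cast h1.le
  calc ∏ i, (N (s i) : ℝ) ≤ ∏ i, ((m : ℝ) * ((q i : ℝ) + 1)) :=
        Finset.prod_le_prod (fun i _ => (hNpos _).le) fun i _ => hfac i
    _ = (m : ℝ) ^ m * ((P.card : ℕ) : ℝ) := by
        rw [Finset.prod_mul_distrib, Finset.prod_const, Finset.card_univ, Fintype.card_fin, hPc]
        push_cast
        rfl
    _ ≤ (m : ℝ) ^ m * ((D.natAbs * F.card : ℕ) : ℝ) := by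
        refine mul_le_mul_of_nonneg_left ?_ (by positivity)
        exact_mod_cast hy
    _ ≤ (m : ℝ) ^ m * ((D.natAbs * cnt L N 1 : ℕ) : ℝ) := by
        refine mul_le_mul_of_nonneg_left ?_ (by positivity)
        exact_mod_cast Nat.mul_le_mul_left _ hle
    _ = (m : ℝ) ^ m * |(D : ℝ)| * cnt L N 1 := by
        rw [Nat.cast_mul, Nat.cast_natAbs, Int.cast_abs]
        ring

end Pool.Agent.PCL.H50
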